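import Pool.Agent.W586.GZ.Stm

set_option autoImplicit false

namespace Pool.Agent.W138.GZ

open Pool.Agent.W586.GZ

lemma cutm (c : ℕ → ℕ → ℝ) (hc : ∀ i, c i i = 0) (G : Finset ℕ) :
    ∀ a b : ℕ → ℝ, ∃ A ⊆ G,
      (∑ i ∈ G, ∑ j ∈ G, c i j) / 4 + (∑ i ∈ G, a i) / 2 + (∑ i ∈ G, b i) / 2 ≤
        ∑ i ∈ G \ A, ∑ j ∈ A, c i j + ∑ i ∈ G \ A, a i + ∑ j ∈ A, b j := by
  classical
  induction G using Finset.induction_on with
  | empty =>
    intro a b
    exact ⟨∅, Finset.Subset.refl _, by simp⟩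
  | insert g G hg ih =>
    intro a b
    obtain ⟨A1, hA1, h1⟩ := ih (fun i => a i + c i g) b
    obtain ⟨A2, hA2, h2⟩ := ih a (fun j => b j + c g j)
    have hg1 : g ∉ A1 := fun h => hg (hA1 h)
    have hg2 : g ∉ A2 := fun h => hg (hA2 h)
    have e1 : (insert g G) \ (insert g A1) = G \ A1 := by
      ext x
      simp only [Finset.mem_sdiff, Finset.mem_insert, not_or]
      constructor
      · rintro ⟨h | h, h3, h4⟩
        · exact absurd h h3
        · exact ⟨h, h4⟩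
      · rintro ⟨h, h4⟩
        exact ⟨Or.inr h, fun h5 => hg (h5 ▸ h), h4⟩
    have e2 : (insert g G) \ A2 = insert g (G \ A2) := by
      rw [Finset.insert_sdiff_of_notMem _ hg2]
    have hg3 : g ∉ G \ A2 := fun h => hg (Finset.mem_sdiff.1 h).1
    -- the value of the two options
    have v1 : ∑ i ∈ (insert g G) \ (insert g A1), ∑ j ∈ insert g A1, c i j +
        ∑ i ∈ (insert g G) \ (insert g A1), a i + ∑ j ∈ insert g A1, b j =
        (∑ i ∈ G \ A1, ∑ j ∈ A1, c i j + ∑ i ∈ G \ A1, (a i + c i g) + ∑ j ∈ A1, b j) + b g := by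
      rw [e1, Finset.sum_insert hg1, Finset.sum_add_distrib]
      have : ∑ i ∈ G \ A1, ∑ j ∈ insert g A1, c i j =
          ∑ i ∈ G \ A1, c i g + ∑ i ∈ G \ A1, ∑ j ∈ A1, c i j := by
        rw [← Finset.sum_add_distrib]
        exact Finset.sum_congr rfl fun i _ => Finset.sum_insert hg1
      rw [this]
      ring
    have v2 : ∑ i ∈ (insert g G) \ A2, ∑ j ∈ A2, c i j +
        ∑ i ∈ (insert g G) \ A2, a i + ∑ j ∈ A2, b j =
        (∑ i ∈ G \ A2, ∑ j ∈ A2, c i j + ∑ i ∈ G \ A2, a i + ∑ j ∈ A2, (b j + c g j)) + a g := by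
      rw [e2, Finset.sum_insert hg3, Finset.sum_insert hg3, Finset.sum_add_distrib]
      ring
    have t : ∑ i ∈ insert g G, ∑ j ∈ insert g G, c i j =
        ∑ i ∈ G, ∑ j ∈ G, c i j + ∑ i ∈ G, c i g + ∑ j ∈ G, c g j := by
      rw [Finset.sum_insert hg, Finset.sum_insert hg, hc g]
      have : ∑ i ∈ G, ∑ j ∈ insert g G, c i j = ∑ i ∈ G, c i g + ∑ i ∈ G, ∑ j ∈ G, c i j := by
        rw [← Finset.sum_add_distrib]
        exact Finset.sum_congr rfl fun i _ => Finset.sum_insert hg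
      rw [this]
      ring
    have ta : ∑ i ∈ insert g G, a i = a g + ∑ i ∈ G, a i := Finset.sum_insert hg
    have tb : ∑ i ∈ insert g G, b i = b g + ∑ i ∈ G, b i := Finset.sum_insert hg
    rw [Finset.sum_add_distrib] at h1 h2
    by_cases hh : (∑ i ∈ insert g G, ∑ j ∈ insert g G, c i j) / 4 + (∑ i ∈ insert g G, a i) / 2 +
        (∑ i ∈ insert g G, b i) / 2 ≤
        ∑ i ∈ (insert g G) \ (insert g A1), ∑ j ∈ insert g A1, c i j +
        ∑ i ∈ (insert g G) \ (insert g A1), a i + ∑ j ∈ insert g A1, b j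
    · exact ⟨insert g A1, Finset.insert_subset_insert g hA1, hh⟩
    · refine ⟨A2, hA2.trans (Finset.subset_insert g G), ?_⟩
      push Not at hh
      rw [v1] at hh
      rw [v2]
      rw [t, ta, tb] at hh ⊢
      linarith

theorem main : Pool.Agent.W586.GZ.S_CUTM := by
  intro G c hc
  obtain ⟨A, hA, h⟩ := cutm c hc G (fun _ => 0) (fun _ => 0)
  exact ⟨A, hA, by simpa using h⟩

end Pool.Agent.W138.GZ
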